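import Pool.Agent.H568.LB.Stm

/-!
# Project LB (helper568), task N4 (helper665): a kernel computation
-/

set_option autoImplicit false

open Finset Filter Topology Pool.Agent.N792 Pool.Agent.N791.U Pool.Agent.N792.RX5 Pool.Agent.H568 Pool.Agent.H568.LB

namespace Pool.Agent.H665.LB

namespace N4

/-- one indicator function -/
def ii (u v : ℕ) : ℕ := bif Nat.ble u 2099999 && Nat.ble 2700001 v then 1 else 0

/-- the weight -/
def ww (lo hi c1 c2 c3 : ℕ) : ℕ :=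
  ii (10000 * c3 - 10000 + lo) (20000 * c3 + hi) + (ii (10000 * c2 - 10000 + lo) (20000 * c2 + hi) +
  (ii (10000 * c1 - 10000 + lo) (20000 * c1 + hi) + (ii (10000 * (c2 + c3) - 20000) (10000 * (c2 + c2 + c3)) +
  (ii (10000 * (c1 + c3) - 20000) (10000 * (c1 + c1 + c3)) + ii (10000 * (c1 + c2) - 20000) (10000 * (c1 + c1 + c2))))))

/-- sums -/
def rs (f : ℕ → ℕ) (n : ℕ) : ℕ := Nat.rec 0 (fun i r => r + f i) n

/-- the term of a cell -/
def cell (c1 c2 c3 s : ℕ) : ℕ :=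
  lamN c3 * (ww (max (4799760 - 10000 * s) (10000 * c3 - 10000)) (4830240 - 10000 * s) c1 c2 c3 * gN 240 s)

def in3 (c1 c2 : ℕ) : ℕ := rs (fun i => cell c1 c2 (c2 + i) (c1 + c2 + (c2 + i))) ((484 - c1 - c2) / 2 + 1 - c2)

def in2 (c1 : ℕ) : ℕ := rs (fun i => lamN (c1 + i) * in3 c1 (c1 + i)) ((484 - c1) / 3 + 1 - c1)

def in1 (a n : ℕ) : ℕ := rs (fun i => lamN (a + i) * in2 (a + i)) n

theorem rs_eq (f : ℕ → ℕ) (a n : ℕ) : rs (fun i => f (a + i)) n = ∑ c ∈ Ico a (a + n), f c := by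
  induction n with
  | zero => simp [rs]
  | succ n ih =>
    have h : rs (fun i => f (a + i)) (n + 1) = rs (fun i => f (a + i)) n + f (a + n) := rfl
    rw [h, ih, ← add_assoc, sum_Ico_succ_top (Nat.le_add_right a n)]

theorem posd_eq (x y z w : ℕ) : posd 240 (x, y) (z, w) = ii (x + z) (2 * y + w) := by
  unfold posd ii
  by_cases h : x + z < 8750 * 240 ∧ 11250 * 240 < 2 * y + w
  · rw [if_pos h]
    have h1 : Nat.ble (x + z) 2099999 = true := Nat.ble_eq_true_of_le (by omega)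
    have h2 : Nat.ble 2700001 (2 * y + w) = true := Nat.ble_eq_true_of_le (by omega)
    rw [h1, h2]
    rfl
  · rw [if_neg h]
    by_cases h1 : x + z < 8750 * 240
    · have h2 : Nat.ble 2700001 (2 * y + w) = false := by
        rw [← Bool.not_eq_true, Nat.ble_eq]
        intro h3
        exact h ⟨h1, by omega⟩
      rw [h2, Bool.and_false]
      rfl
    · have h2 : Nat.ble (x + z) 2099999 = false := by
        rw [← Bool.not_eq_true, Nat.ble_eq]
        omega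
      rw [h2, Bool.false_and]
      rfl

theorem okl_iff (c1 c2 c3 : ℕ) : okl 240 [c3, c2, c1] = true ↔
    (c2 ≤ c3 ∧ c1 ≤ c3 ∧ c1 ≤ c2) ∧ 10000 * (c3 + (c2 + c1) + c3) < 20001 * 240 + 10000 * 4 := by
  unfold okl
  rw [Bool.and_eq_true, decide_eq_true_iff, decide_eq_true_iff]
  simp [and_assoc]

theorem ivs_eq (c1 c2 c3 : ℕ) : ivs 240 [c3, c2, c1] =
      [(max (4799760 - 10000 * (c1 + c2 + c3)) (10000 * c3 - 10000),
        4830240 - 10000 * (c1 + c2 + c3)), (10000 * c3 - 10000, 10000 * c3),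
        (10000 * c2 - 10000, 10000 * c2), (10000 * c1 - 10000, 10000 * c1)] := by
  have b1 : 19999 * 240 - 10000 * [c3, c2, c1].sum = 4799760 - 10000 * (c1 + c2 + c3) := by
    simp only [List.sum_cons, List.sum_nil]
    omega
  have b2 : 20001 * 240 + 10000 * [c3, c2, c1].length - 10000 * [c3, c2, c1].sum =
      4830240 - 10000 * (c1 + c2 + c3) := by
    simp only [List.sum_cons, List.sum_nil, List.length_cons, List.length_nil]
    omega
  have b3 : ∀ c : ℕ, 10000 * (c - 1) = 10000 * c - 10000 := fun c => by omega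
  have b4 : [c3, c2, c1].headD 0 = c3 := rfl
  unfold ivs
  rw [b1, b2, b4]
  simp only [b3, List.map_cons, List.map_nil]

theorem f1 (c lo hi : ℕ) : ii (10000 * c - 10000 + lo) (2 * (10000 * c) + hi) =
      ii (10000 * c - 10000 + lo) (20000 * c + hi) := by
  have g1 : 2 * (10000 * c) + hi = 20000 * c + hi := by omega
  rw [g1]

theorem f2 {c d : ℕ} (hc : 1 ≤ c) (hd : 1 ≤ d) : ii (10000 * c - 10000 + (10000 * d - 10000))
      (2 * (10000 * c) + 10000 * d) = ii (10000 * (c + d) - 20000) (10000 * (c + c + d)) := by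
  have g1 : 10000 * c - 10000 + (10000 * d - 10000) = 10000 * (c + d) - 20000 := by omega
  have g2 : 2 * (10000 * c) + 10000 * d = 10000 * (c + c + d) := by omega
  rw [g1, g2]

theorem ps2_eq (f : ℕ × ℕ → ℕ × ℕ → ℕ) (A B C D : ℕ × ℕ) :
    ps2 f [A, B, C, D] = f B A + (f C A + (f D A + (f C B + (f D B + f D C)))) := by
  simp only [ps2, List.map_cons, List.map_nil, List.sum_cons, List.sum_nil, add_zero]
  omega

theorem wD_eq {c1 c2 c3 : ℕ} (h1 : 1 ≤ c1) (h2 : 1 ≤ c2) (h3 : 1 ≤ c3)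
    (h : okl 240 [c3, c2, c1] = true) :
    wD 240 [c3, c2, c1] = ww (max (4799760 - 10000 * (c1 + c2 + c3)) (10000 * c3 - 10000))
      (4830240 - 10000 * (c1 + c2 + c3)) c1 c2 c3 := by
  unfold wD
  rw [if_pos h, ivs_eq, ps2_eq, posd_eq, posd_eq, posd_eq, posd_eq, posd_eq, posd_eq,
    f2 h2 h3, f2 h1 h3, f2 h1 h2, f1, f1, f1]
  unfold ww
  rfl

theorem F_le (c1 c2 c3 : ℕ) (h1 : 1 ≤ c1) (h2 : 1 ≤ c2) (h3 : 1 ≤ c3) :
    lamN c3 * (wD 240 [c3, c2, c1] * gN 240 [c3, c2, c1].sum) ≤ cell c1 c2 c3 (c1 + c2 + c3) := by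
  by_cases h : okl 240 [c3, c2, c1] = true
  · unfold cell
    rw [wD_eq h1 h2 h3 h]
    have a1 : [c3, c2, c1].sum = c1 + c2 + c3 := by
      simp
      ring
    rw [a1]
  · unfold wD
    rw [if_neg h, zero_mul, mul_zero]
    exact Nat.zero_le _

theorem F_ne {c1 c2 c3 : ℕ} (h : lamN c3 * (wD 240 [c3, c2, c1] * gN 240 [c3, c2, c1].sum) ≠ 0) :
    c1 ≤ c2 ∧ c2 ≤ c3 ∧ c1 + c2 + 2 * c3 ≤ 484 := by
  have h1 : okl 240 [c3, c2, c1] = true := by
    by_contra h2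
    apply h
    unfold wD
    rw [if_neg h2, zero_mul, mul_zero]
  rw [okl_iff] at h1
  omega

theorem in3_le (c1 c2 : ℕ) (h1 : 1 ≤ c1) (h2 : 1 ≤ c2) :
    ∑ c3 ∈ Ioc 60 241, lamN c3 * (wD 240 [c3, c2, c1] * gN 240 [c3, c2, c1].sum) ≤ in3 c1 c2 := by
  unfold in3
  rw [rs_eq (fun c3 => cell c1 c2 c3 (c1 + c2 + c3)) c2 ((484 - c1 - c2) / 2 + 1 - c2)]
  refine le_trans (sum_le_sum_of_ne_zero (t := Ico c2 (c2 + ((484 - c1 - c2) / 2 + 1 - c2)))
    fun c3 _ h => ?_) (sum_le_sum fun c3 h3 => F_le c1 c2 c3 h1 h2 ?_)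
  · have h4 := F_ne h
    rw [mem_Ico]
    omega
  · rw [mem_Ico] at h3
    omega

theorem in3_zero {c1 c2 : ℕ} (h : ¬ (c1 ≤ c2 ∧ 3 * c2 ≤ 484 - c1)) :
    ∑ c3 ∈ Ioc 60 241, lamN c3 * (wD 240 [c3, c2, c1] * gN 240 [c3, c2, c1].sum) = 0 := by
  refine sum_eq_zero fun c3 _ => ?_
  by_contra h2
  have h3 := F_ne h2
  omega

theorem in2_le (c1 : ℕ) (h1 : 1 ≤ c1) :
    ∑ c2 ∈ Ioc 60 241, lamN c2 * ∑ c3 ∈ Ioc 60 241,
      lamN c3 * (wD 240 [c3, c2, c1] * gN 240 [c3, c2, c1].sum) ≤ in2 c1 := by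
  unfold in2
  rw [rs_eq (fun c2 => lamN c2 * in3 c1 c2) c1 ((484 - c1) / 3 + 1 - c1)]
  refine le_trans (sum_le_sum_of_ne_zero (t := Ico c1 (c1 + ((484 - c1) / 3 + 1 - c1)))
    fun c2 _ h => ?_) (sum_le_sum fun c2 h2 => Nat.mul_le_mul_left _ (in3_le c1 c2 h1 ?_))
  · have h4 : c1 ≤ c2 ∧ 3 * c2 ≤ 484 - c1 := by
      by_contra h5
      exact h (by rw [in3_zero h5, mul_zero])
    rw [mem_Ico]
    omega
  · rw [mem_Ico] at h2
    omega

theorem in2_zero {c1 : ℕ} (h : ¬ c1 ≤ 121) :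
    ∑ c2 ∈ Ioc 60 241, lamN c2 * ∑ c3 ∈ Ioc 60 241,
      lamN c3 * (wD 240 [c3, c2, c1] * gN 240 [c3, c2, c1].sum) = 0 := by
  refine sum_eq_zero fun c2 _ => ?_
  rw [in3_zero (by omega), mul_zero]

theorem in1_le : Pool.Agent.H568.LB.cs 60 241 (fun l => wD 240 l * gN 240 l.sum) 3 [] ≤ in1 61 61 := by
  simp only [Pool.Agent.H568.LB.cs]
  unfold in1
  rw [rs_eq (fun c1 => lamN c1 * in2 c1) 61 61]
  refine le_trans (sum_le_sum_of_ne_zero (t := Ico 61 (61 + 61))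
    fun c1 h1 h => ?_) (sum_le_sum fun c1 h1 => Nat.mul_le_mul_left _ (in2_le c1 ?_))
  · have h4 : c1 ≤ 121 := by
      by_contra h5
      exact h (by rw [in2_zero h5, mul_zero])
    rw [mem_Ioc] at h1
    rw [mem_Ico]
    omega
  · rw [mem_Ico] at h1
    omega

theorem comp : in1 61 61 ≤ 899 * 10 ^ 26 := by
  decide +kernel

end N4

theorem t_N4 : S_N4 := N4.in1_le.trans N4.comp

end Pool.Agent.H665.LB
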